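import Pool.Agent.helper65.GD.SpecF

set_option autoImplicit false

namespace Pool.Agent.GD

open Finset

lemma XN3_gauss (A : ℕ) : ∑ i ∈ range A, (i : ℝ) = (A : ℝ) * ((A : ℝ) - 1) / 2 := by
  induction A with
  | zero => simp
  | succ A ih =>
    rw [Finset.sum_range_succ, ih]
    push_cast
    ring

lemma XN3_sum (p A : ℕ) : ∑ m ∈ Ioo p (p + 1 + A), (((p + 1 + A : ℕ) : ℝ) - m) = (A : ℝ) * ((A : ℝ) + 1) / 2 := by
  have h1 : Ioo p (p + 1 + A) = Ico (p + 1) (p + 1 + A) := by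
    ext m
    simp only [mem_Ioo, mem_Ico]
    omega
  rw [h1, Finset.sum_Ico_eq_sum_range]
  have h2 : p + 1 + A - (p + 1) = A := by omega
  rw [h2]
  have h3 : ∀ i ∈ range A, ((((p + 1 + A : ℕ) : ℝ)) - ((p + 1 + i : ℕ) : ℝ)) = (A : ℝ) - (i : ℝ) := by
    intro i _
    push_cast
    ring
  rw [Finset.sum_congr rfl h3, Finset.sum_sub_distrib, Finset.sum_const, Finset.card_range, XN3_gauss, nsmul_eq_mul]
  ring

theorem XN3 (h1 : XN1_stmt) (h2 : XN2_stmt) : XN3_stmt := by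
  intro p n j hj hjp hpn
  obtain ⟨A, rfl⟩ : ∃ A, n = p + 1 + A := ⟨n - (p + 1), by omega⟩
  have hA : p + 1 + A - p - 1 = A := by omega
  rw [hA]
  obtain ⟨c, hc⟩ : ∃ c : ℝ, c = ((((p + 1 - j : ℕ) : ℝ) ^ 2 + 4 * ((p + 1 - j : ℕ) : ℝ) - 8) / 3) := ⟨_, rfl⟩
  rw [← hc, ← XN3_sum p A, Finset.sum_mul]
  refine Finset.sum_le_sum fun m hm => ?_
  rw [mem_Ioo] at hm
  have h3 : c ≤ AA p m j := by
    rw [hc]
    exact (h1 p j hj hjp).trans (h2 p m j hj (by omega) hm.1)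
  refine mul_le_mul_of_nonneg_left h3 ?_
  have h4 : (m : ℝ) ≤ ((p + 1 + A : ℕ) : ℝ) := by exact_mod_cast hm.2.le
  linarith

end Pool.Agent.GD
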